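import Pool.Agent.Helper60.NC.Words

/-!
# The numbers for the programs which read all bits, with a small `δ`
-/

set_option autoImplicit false

namespace Pool.Agent.Helper27.ND

open Pool.Agent.Helper19.NF
open Pool.Agent.Helper27.NC (bword table)
open Pool.Agent.Helper60.NB (read_symbols)
open Pool.Agent.Helper60.NC (alph sum_alph card_vec two_le_card card_sq)

/-- The numbers, with `L` at least the logarithm of `n`. -/
theorem num_bound (C₀ : ℝ) (hC₀ : 0 < C₀) (n m k q C : ℕ) (L : ℝ) (hlog : Real.log n ≤ L)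
    (h216 : 216 ≤ L) (h4 : 9 * L ^ 3 ≤ n) (hC : 5 * C₀ + 1 ≤ C) (hm1 : 1 ≤ m) (hm : (m : ℝ) ≤ L ^ 2) (hk1 : 2 ≤ k)
    (hk : k ≤ n ^ 6) (hq : q ≤ n) :
    (q : ℝ) * 2 ^ (C₀ * (n * Real.logb 2 (2 * (m * Real.logb 2 k)) + m * Real.logb 2 k)) ≤
      L ^ (C * n) := by
  have hn0 : 0 < n := by
    rcases Nat.eq_zero_or_pos n with h | h
    · rw [h, Nat.cast_zero] at h4
      have : 0 < L ^ 3 := by positivity
      linarith
    · exact h
  have hn : (0 : ℝ) < n := by exact_mod_cast hn0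
  have hl2 : 0 < Real.log 2 := Real.log_pos (by norm_num)
  have hl2' : (2 : ℝ) / 3 ≤ Real.log 2 := by linarith [Real.log_two_gt_d9]
  have hL0 : 0 < L := by linarith
  have hlk : Real.logb 2 k ≤ 9 * L := by
    rw [Real.logb, div_le_iff₀ hl2]
    have h1 : Real.log k ≤ 6 * L := by
      have h2 : Real.log k ≤ Real.log ((n : ℝ) ^ 6) :=
        Real.log_le_log (by exact_mod_cast (by omega : 0 < k)) (by exact_mod_cast hk)
      rw [Real.log_pow] at h2
      refine h2.trans ?_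
      push_cast
      linarith
    nlinarith
  have hlk1 : 1 ≤ Real.logb 2 k := by
    rw [Real.le_logb_iff_rpow_le (by norm_num) (by exact_mod_cast (by omega : 0 < k)), Real.rpow_one]
    exact_mod_cast hk1
  have hm' : (1 : ℝ) ≤ m := by exact_mod_cast hm1
  have hlL : 1 ≤ Real.logb 2 L := by
    rw [Real.le_logb_iff_rpow_le (by norm_num) hL0, Real.rpow_one]
    linarith
  have h1 : 2 * (m * Real.logb 2 k) ≤ L ^ 4 := by
    have h2 : (m : ℝ) * Real.logb 2 k ≤ L ^ 2 * (9 * L) :=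
      mul_le_mul hm hlk (by linarith) (by positivity)
    calc 2 * (m * Real.logb 2 k) ≤ 18 * L ^ 3 := by nlinarith
      _ ≤ L * L ^ 3 := by
          refine mul_le_mul_of_nonneg_right (by linarith) (by positivity)
      _ = L ^ 4 := by ring
  have h3 : Real.logb 2 (2 * (m * Real.logb 2 k)) ≤ 4 * Real.logb 2 L := by
    calc Real.logb 2 (2 * (m * Real.logb 2 k)) ≤ Real.logb 2 (L ^ 4) :=
          Real.logb_le_logb_of_le (by norm_num) (by positivity) h1
      _ = 4 * Real.logb 2 L := by rw [Real.logb_pow]; norm_num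
  have h7 : m * Real.logb 2 k ≤ n * Real.logb 2 L := by
    have h2 : (m : ℝ) * Real.logb 2 k ≤ L ^ 2 * (9 * L) :=
      mul_le_mul hm hlk (by linarith) (by positivity)
    nlinarith
  have h8 : C₀ * (n * Real.logb 2 (2 * (m * Real.logb 2 k)) + m * Real.logb 2 k) ≤
      5 * C₀ * (n * Real.logb 2 L) := by
    have h9 : n * Real.logb 2 (2 * (m * Real.logb 2 k)) ≤ n * (4 * Real.logb 2 L) :=
      mul_le_mul_of_nonneg_left h3 hn.le
    nlinarith
  have h10 : (q : ℝ) ≤ 2 ^ (n * Real.logb 2 L) := by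
    calc (q : ℝ) ≤ n := by exact_mod_cast hq
      _ ≤ 2 ^ n := by exact_mod_cast Nat.lt_two_pow_self.le
      _ = (2 : ℝ) ^ (n : ℝ) := (Real.rpow_natCast 2 n).symm
      _ ≤ 2 ^ (n * Real.logb 2 L) := by
          refine Real.rpow_le_rpow_of_exponent_le (by norm_num) ?_
          nlinarith
  calc (q : ℝ) * 2 ^ (C₀ * (n * Real.logb 2 (2 * (m * Real.logb 2 k)) + m * Real.logb 2 k))
      ≤ 2 ^ (n * Real.logb 2 L) * 2 ^ (5 * C₀ * (n * Real.logb 2 L)) :=
        mul_le_mul h10 (Real.rpow_le_rpow_of_exponent_le (by norm_num) h8) (by positivity)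
          (by positivity)
    _ = 2 ^ ((5 * C₀ + 1) * (n * Real.logb 2 L)) := by
        rw [← Real.rpow_add (by norm_num)]
        congr 1
        ring
    _ ≤ 2 ^ ((C : ℝ) * (n * Real.logb 2 L)) := by
        refine Real.rpow_le_rpow_of_exponent_le (by norm_num) ?_
        refine mul_le_mul_of_nonneg_right hC ?_
        nlinarith
    _ = L ^ (C * n) := by
        rw [show (C : ℝ) * (n * Real.logb 2 L) = Real.logb 2 L * ((C * n : ℕ) : ℝ) by
          push_cast; ring, Real.rpow_mul (by norm_num), Real.rpow_logb (by norm_num) (by norm_num) hL0,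
          Real.rpow_natCast]

/-- A program which may read all bits. -/
theorem read_words : ∃ C : ℕ, ∀ (n m e : ℕ) [NeZero m] (L : ℝ) (K : Type) [Field K] [Fintype K]
    (x0 : ZMod (n + 1) × ZMod m → Fin e → K), 1 ≤ e → Real.log n ≤ L → 216 ≤ L → 9 * L ^ 3 ≤ n →
    (m : ℝ) ≤ L ^ 2 → Fintype.card K ^ 2 ≤ n → Fintype.card K ^ e ≤ n ^ 6 →
    ∃ (S : ℕ) (P : Prog ((Fin e → K) × (K × K)) Bool (Fin e → K) 1 S),
      (S : ℝ) ≤ L ^ (C * n) ∧ ∀ J, P.Outputs J (P.start 0) (out x0 (table J)) := by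
  obtain ⟨C₀, hC₀, h⟩ := read_symbols
  obtain ⟨C, hC⟩ := exists_nat_ge (5 * C₀ + 1)
  refine ⟨C, fun n m e _ L K _ _ x0 he hL h216 h4 hm hq hk => ?_⟩
  have hn : 1 ≤ n := by
    rcases Nat.eq_zero_or_pos n with h | h
    · rw [h, Nat.cast_zero] at h4
      have : 0 < L ^ 3 := by positivity
      linarith
    · exact h
  have hk2 : 2 ≤ Fintype.card K ^ e := two_le_card he
  have hm1 : 1 ≤ m := Nat.one_le_iff_ne_zero.2 (NeZero.ne m)
  obtain ⟨S, P, hP, hS⟩ := h n m (Fin e → K) (K × K) Bool (alph e) x0 hn (by rw [card_vec]; exact hk2)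
  refine ⟨S, P, hS.trans ?_, fun J => ?_⟩
  · rw [card_vec, card_sq]
    exact num_bound C₀ hC₀ n m (Fintype.card K ^ e) _ C L hL h216 h4 hC hm1 hm hk2 hk hq
  · rw [← sum_alph]
    exact hP J

end Pool.Agent.Helper27.ND
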