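import Pool.Agent.Helper27.ND.Param
import Pool.Agent.Helper27.ND.Words
import Pool.Agent.Helper98.NC.Push
import Pool.Agent.Helper58.NC.Head
import Pool.Agent.Helper84.NC.Bound

/-!
# The final steps, with a small `δ`
-/

set_option autoImplicit false

namespace Pool.Agent.Helper27.ND

open Pool.Agent.Helper19.NF Pool.Agent.Helper27.NC
open Pool.Agent.Helper27.NB (num)
open Pool.Agent.Helper98.NC (push_head)
open Pool.Agent.Helper58.NC (head)
open Pool.Agent.Helper60.NC (push_words det_words)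

/-- (G). -/
theorem general {K : Type} [Field K] [Fintype K] {c d M n m e σ S p T : ℕ} [Fact c.Prime] [CharP K c] [NeZero m]
      {Y : Type} (x : ℝ) (x0 : ZMod (n + 1) × ZMod m → Fin e → K) (φ : (Fin e → K) → Y)
      (P : Prog ((Fin e → K) × (K × K)) Bool (Y × Fin σ) σ S) (hn : 1 ≤ n) (he : 1 ≤ e)
      (hQ : 2 * m * e ≤ Fintype.card K)
      (hd : d < (Fintype.card K - (2 * m * e - 1)) * (Fintype.card K - Fintype.card K / c))
      (hM : 4 * (n * m) ≤ M) (hM' : 2 * Fintype.card K ^ e ≤ M)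
      (hη : (M : ℝ) * ((Fintype.card K : ℝ) ^ (2 * m * e) * (1 - 1 / (8 * (c : ℝ) ^ 2)) ^ d) ≤ 1)
      (hx : 0 < x) (h0 : Function.Injective x0) (hφ : ∀ y, Nat.card {b // φ b = y} ≤ p) :
      (Nat.card {s : Fin σ × ((Fin e → K) × (K × K) → Bool) //
          P.Outputs s.2 (P.start s.1) (φ (out x0 (table s.2)), s.1) ∧
          Nat.card {b // P.Asks s.2 (P.start s.1) b} ≤ T} : ℝ) ≤
        (σ * ((2 * (n * (n + 1) * m) ^ 2 + (1 + 1 / M) * p) / (Fintype.card K : ℝ) ^ e + 2 * (n * m *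
            (((T / ((Fintype.card K - (2 * m * e - 1)) * (Fintype.card K - Fintype.card K / c) - d) : ℕ) : ℝ) /
              (Fintype.card K : ℝ) ^ e) ^ m)) +
          2 * (S * (Real.exp x * (4 * m ^ 2 * ((T : ℝ) / (Fintype.card K : ℝ) ^ e) / x + 2 * m ^ 2 * n *
            (((T / ((Fintype.card K - (2 * m * e - 1)) * (Fintype.card K - Fintype.card K / c) - d) : ℕ) : ℝ) /
              (Fintype.card K : ℝ) ^ e) ^ m) ^ (n - 1)))) * Nat.card ((Fin e → K) × (K × K) → Bool) :=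
  Pool.Agent.Helper84.NC.bound_word c d M hn he hQ hd hM hM' hη x hx x0 h0 φ p T hφ P

/-- (H). -/
theorem numbers : ∃ C n0 : ℕ, ∀ n ≥ n0, ∀ δ : ℝ, 0 < δ → δ ≤ 1 → 1 ≤ δ ^ 20 * n →
    ∃ (c m s e k N : ℕ) (_ : NeZero m), c.Prime ∧ 1 ≤ s ∧ 1 ≤ e ∧ k = (c ^ s) ^ e ∧ N = k * (c ^ s) ^ 2 ∧
      n * (n + 1) * m ≤ k ∧ n ^ 5 ≤ N ∧ N ≤ n ^ 6 ∧
      ∀ (K : Type) (_ : Field K) (_ : Fintype K) (x0 : ZMod (n + 1) × ZMod m → Fin e → K),
      Fintype.card K = c ^ s → Function.Injective x0 →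
      -- (L) programs
      (∀ (σ S p T : ℕ) (Y : Type) (φ : (Fin e → K) → Y) (P : Prog ((Fin e → K) × (K × K)) Bool (Y × Fin σ) σ S),
        (∀ y, Nat.card {b // φ b = y} ≤ p) → (T : ℝ) ≤ (1 - δ) * N → (S : ℝ) ≤ σ * (n : ℝ) ^ ((n : ℝ) / 3) →
        (Nat.card {s : Fin σ × ((Fin e → K) × (K × K) → Bool) //
            P.Outputs s.2 (P.start s.1) (φ (out x0 (table s.2)), s.1) ∧
            Nat.card {b // P.Asks s.2 (P.start s.1) b} ≤ T} : ℝ) ≤
          (p / k + δ) * Nat.card (Fin σ × ((Fin e → K) × (K × K) → Bool))) ∧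
      -- (T) pushdown programs
      (∀ (w p T : ℕ) (Y Q Γ : Type) (_ : Finite Q) (_ : Finite Γ) (φ : (Fin e → K) → Y)
          (P : PProg ((Fin e → K) × (K × K)) Bool Y Q Γ),
        (∀ y, Nat.card {b // φ b = y} ≤ p) → (T : ℝ) ≤ (1 - δ) * N →
        (16 * w ^ 2 : ℝ) ≤ n * Real.log n → Nat.card Q ≤ 2 ^ w → Nat.card Γ ≤ 2 ^ w →
        (Nat.card {J : (Fin e → K) × (K × K) → Bool //
            (∃ j ≤ 2 ^ w, P.act (P.conf J j).1 = .out (φ (out x0 (table J)))) ∧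
            Nat.card {b // P.Asks J b} ≤ T} : ℝ) ≤
          (p / k + δ) * Nat.card ((Fin e → K) × (K × K) → Bool)) ∧
      -- (P) a pushdown program which is always right
      (∃ (Q Γ : Type) (_ : Finite Q) (_ : Finite Γ) (P : PProg ((Fin e → K) × (K × K)) Bool (Fin e → K) Q Γ),
        Nat.card Q ≤ (2 * k) ^ 5 ∧ Nat.card Γ ≤ (2 * k) ^ 2 ∧
        ∀ J, P.Outputs J (out x0 (table J)) ∧ Nat.card {b // P.Asks J b} ^ 2 ≤ N) ∧
      -- (U) a program which is always right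
      (∃ (S : ℕ) (P : Prog ((Fin e → K) × (K × K)) Bool (Fin e → K) 1 S), S ≤ (2 * k) ^ (5 * n) ∧
        ∀ J, P.Outputs J (P.start 0) (out x0 (table J)) ∧ Nat.card {b // P.Asks J (P.start 0) b} ^ 2 ≤ N) ∧
      -- (C) a program which reads all bits
      (∃ (S : ℕ) (P : Prog ((Fin e → K) × (K × K)) Bool (Fin e → K) 1 S), (S : ℝ) ≤ (Real.log n / δ) ^ (C * n) ∧
        ∀ J, P.Outputs J (P.start 0) (out x0 (table J))) := by
  classical
  obtain ⟨C, hC⟩ := read_words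
  obtain ⟨n0, hn0⟩ := parameters
  refine ⟨C, max n0 2, fun n hn δ hδ hδ1 hδ20 => ?_⟩
  obtain ⟨c, m, s, e, d, hc, hδc, hm, hs, he, hlog, hr, hd, hm2, hk5, hk6, hkmm, hsq, hN7, hΛ, hr', hmlog, h9, h216, hQn,
    hη, hδn⟩ := hn0 n (le_of_max_le_left hn) δ hδ hδ1 hδ20
  have hn2 : 2 ≤ n := le_of_max_le_right hn
  have hkm0 : n * (n + 1) * m ≤ n * (n + 1) * m * (2 * m) := Nat.le_mul_of_pos_right _ (by omega)
  refine ⟨c, m, s, e, (c ^ s) ^ e, (c ^ s) ^ e * (c ^ s) ^ 2, ⟨by omega⟩, hc, hs, he, rfl, rfl, hkm0.trans hkmm,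
    hk5.trans (Nat.le_mul_of_pos_right _ (pow_pos (pow_pos hc.pos _) _)), hN7, ?_⟩
  intro K _ _ x0 hK h0
  have : NeZero m := ⟨by omega⟩
  have : Fact c.Prime := ⟨hc⟩
  have : CharP K c := charP_of_card_eq_prime_pow hK
  rw [← hK] at hr hd hm2 hk5 hk6 hkmm hsq hN7 hΛ hr' hQn hη
  rw [← hK]
  have hQ0 : 0 < Fintype.card K := Fintype.card_pos
  have hkR : ((Fintype.card K ^ e : ℕ) : ℝ) = (Fintype.card K : ℝ) ^ e := by push_cast; rfl
  have hNR : ((Fintype.card K ^ e * Fintype.card K ^ 2 : ℕ) : ℝ) = (Fintype.card K : ℝ) ^ e * (Fintype.card K : ℝ) ^ 2 := by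
    push_cast; rfl
  refine ⟨?_, ?_, ?_, ?_, ?_⟩
  · intro σ S p T Y φ P hφ hT hS
    rw [hkR]
    rw [hNR] at hT
    exact head c d he δ hδ hδc hlog hr hd hm2 hk5 hr' hη hδn x0 h0 φ p T hφ hT hS P
  · intro w p T Y Q Γ _ _ φ P hφ hT hw hcQ hcΓ
    rw [hkR]
    rw [hNR] at hT
    exact push_head c d he δ hδ hδc hlog hr hd hm2 hk5 hr' hη hδn x0 h0 φ p T w hφ hT hw hcQ hcΓ P
  · exact push_words x0 he hkmm hΛ hsq
  · obtain ⟨S, P, h1, h2⟩ := det_words (by omega) x0 (hkm0.trans hkmm) hΛ hsq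
    refine ⟨S, P, h1.trans (Nat.pow_le_pow_right ?_ (by omega)), h2⟩
    have : 0 < Fintype.card K ^ e := by positivity
    omega
  · exact hC n m e (Real.log n / δ) K x0 he (le_div_self (by linarith) hδ hδ1)
      (h216.trans (le_div_self (by linarith) hδ hδ1)) h9 hmlog hQn hk6

end Pool.Agent.Helper27.ND
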