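import Pool.Agent.Helper98.NC.Param

/-!
# The parameters for programs which inspect bits, with a small `δ`
-/

set_option autoImplicit false

namespace Pool.Agent.Helper27.ND

open Pool.Agent.Helper98.NC (small_char)

/-- The real number `x = n ^ (1 / 100)` is large against the logarithm of `n`. -/
theorem big : ∃ n0 : ℕ, ∀ n ≥ n0, ∃ x : ℝ, x ^ 100 = n ∧ 18 ≤ x ∧ 3360 * Real.log n ≤ x ∧ 216 ≤ Real.log n := by
  have h1 := (isLittleO_log_rpow_atTop (show (0 : ℝ) < 1 / 100 by norm_num)).bound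
    (show (0 : ℝ) < 1 / 3360 by norm_num)
  have h2 := (tendsto_rpow_atTop (show (0 : ℝ) < 1 / 100 by norm_num)).eventually_ge_atTop 18
  have h3 := Real.tendsto_log_atTop.eventually_ge_atTop 216
  have h4 := ((h1.and (h2.and h3)).and (Filter.eventually_ge_atTop 1)).natCast_atTop
  obtain ⟨n0, hn0⟩ := Filter.eventually_atTop.1 h4
  refine ⟨n0, fun n hn => ?_⟩
  obtain ⟨⟨h5, h6, h7⟩, h8⟩ := hn0 n hn
  refine ⟨(n : ℝ) ^ (1 / 100 : ℝ), ?_, h6, ?_, h7⟩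
  · rw [← Real.rpow_natCast, ← Real.rpow_mul (by linarith)]
    norm_num
  · rw [Real.norm_of_nonneg (by linarith), Real.norm_of_nonneg (by positivity)] at h5
    linarith

/-- The first power of `c` above `y`. -/
theorem first_power {c : ℕ} (hc : 2 ≤ c) {y : ℝ} (hy : 1 < y) :
    ∃ s : ℕ, 1 ≤ s ∧ y ≤ (c : ℝ) ^ s ∧ (c : ℝ) ^ s ≤ c * y := by
  classical
  have hc1 : (1 : ℝ) < c := by exact_mod_cast (by omega : 1 < c)
  have hex : ∃ s : ℕ, y ≤ (c : ℝ) ^ s := (pow_unbounded_of_one_lt y hc1).imp fun _ h => h.le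
  have hs := Nat.find_spec hex
  have h0 : Nat.find hex ≠ 0 := by
    intro h
    rw [h, pow_zero] at hs
    linarith
  refine ⟨Nat.find hex, Nat.one_le_iff_ne_zero.2 h0, hs, ?_⟩
  have h1 := Nat.find_min hex (m := Nat.find hex - 1) (by omega)
  push Not at h1
  have h2 : (c : ℝ) ^ (Nat.find hex) = c * (c : ℝ) ^ (Nat.find hex - 1) := by
    rw [← pow_succ']
    congr 1
    omega
  rw [h2]
  exact mul_le_mul_of_nonneg_left h1.le (by linarith)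

/-- The parameters. -/
theorem parameters : ∃ n0 : ℕ, ∀ n ≥ n0, ∀ δ : ℝ, 0 < δ → δ ≤ 1 → 1 ≤ δ ^ 20 * n →
    ∃ c m s e d : ℕ, c.Prime ∧ 8 ≤ δ * c ∧ 1 ≤ m ∧ 1 ≤ s ∧ 1 ≤ e ∧ 2 * Real.log n / m ≤ δ / 2 ∧
      (8 * (2 * m * e : ℕ) : ℝ) ≤ δ * (c ^ s : ℕ) ∧ (8 * d : ℝ) ≤ δ * ((c ^ s : ℕ) : ℝ) ^ 2 ∧
      (6 * (m * (c ^ s : ℕ)) ^ 2 : ℝ) ≤ Real.sqrt n ∧ n ^ 5 ≤ (c ^ s) ^ e ∧ (c ^ s) ^ e ≤ n ^ 6 ∧
      n * (n + 1) * m * (2 * m) ≤ (c ^ s) ^ e ∧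
      ((n * (n + 1) * m) * (c ^ s) ^ 2) ^ 2 ≤ (c ^ s) ^ e * (c ^ s) ^ 2 ∧
      (c ^ s) ^ e * (c ^ s) ^ 2 ≤ n ^ 6 ∧ (c ^ s) ^ 2 ≤ (c ^ s) ^ e ∧ 2 * m * e ≤ c ^ s ∧
      (m : ℝ) ≤ (Real.log n / δ) ^ 2 ∧ 9 * (Real.log n / δ) ^ 3 ≤ n ∧ 216 ≤ Real.log n ∧ (c ^ s) ^ 2 ≤ n ∧
      ((4 * (c ^ s) ^ e : ℕ) : ℝ) * (((c ^ s : ℕ) : ℝ) ^ (2 * m * e) * (1 - 1 / (8 * (c : ℝ) ^ 2)) ^ d) ≤ 1 ∧
      10 / Real.sqrt n ≤ δ := by
  obtain ⟨n0, hn0⟩ := big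
  refine ⟨n0, fun n hn δ hδ hδ1 hδn => ?_⟩
  obtain ⟨x, hx, hx18, hLx, hL216⟩ := hn0 n hn
  have hx0 : 0 < x := by linarith
  have hx1 : 1 ≤ x := by linarith
  set L : ℝ := Real.log n with hL
  -- `1 / δ ≤ x ^ 5`
  have hδx : 1 ≤ δ * x ^ 5 := by
    rw [← hx] at hδn
    have h1 : (1 : ℝ) ^ 20 ≤ (δ * x ^ 5) ^ 20 := by
      rw [one_pow, mul_pow, ← pow_mul]
      exact hδn
    exact le_of_pow_le_pow_left₀ (by norm_num) (by positivity) h1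
  have hδi : 1 / δ ≤ x ^ 5 := by
    rw [div_le_iff₀ hδ]
    linarith
  have hδi1 : 1 ≤ 1 / δ := by
    rw [le_div_iff₀ hδ]
    linarith
  have hLδ : L / δ ≤ x ^ 6 / 3360 := by
    calc L / δ = L * (1 / δ) := by ring
      _ ≤ (x / 3360) * x ^ 5 := mul_le_mul (by linarith) hδi (by positivity) (by positivity)
      _ = x ^ 6 / 3360 := by ring
  have hLδ1 : 216 ≤ L / δ := by
    calc (216 : ℝ) = 216 * 1 := by ring
      _ ≤ L * (1 / δ) := mul_le_mul hL216 hδi1 zero_le_one (by linarith)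
      _ = L / δ := by ring
  -- `m`
  have hm1 := Nat.le_ceil (4 * (L / δ))
  have hm2 := Nat.ceil_lt_add_one (show 0 ≤ 4 * (L / δ) by linarith)
  obtain ⟨m, hm⟩ : ∃ m, m = ⌈4 * (L / δ)⌉₊ := ⟨_, rfl⟩
  rw [← hm] at hm1 hm2
  have hm5 : (m : ℝ) ≤ 5 * (L / δ) := by linarith
  have hmx : (m : ℝ) ≤ 5 * x ^ 6 / 3360 := by linarith
  have hmx' : (m : ℝ) ≤ x ^ 6 := by linarith [pow_pos hx0 6]
  have hm0 : (1 : ℝ) ≤ m := by linarith
  have hm0' : 1 ≤ m := by exact_mod_cast hm0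
  -- `c`
  obtain ⟨c, hc, hc1, hc2⟩ := Nat.exists_prime_lt_and_le_two_mul ⌈8 / δ⌉₊ (by
    have : 0 < ⌈8 / δ⌉₊ := Nat.ceil_pos.2 (by positivity)
    omega)
  have hc3 := Nat.le_ceil (8 / δ)
  have hc4 := Nat.ceil_lt_add_one (show 0 ≤ 8 / δ by positivity)
  have hc5 : 8 / δ ≤ c := hc3.trans (by exact_mod_cast hc1.le)
  have hc6 : (c : ℝ) ≤ 18 / δ := by
    have h1 : (c : ℝ) ≤ 2 * (⌈8 / δ⌉₊ : ℝ) := by exact_mod_cast hc2
    have h2 : (18 : ℝ) / δ = 2 * (8 / δ) + 2 * (1 / δ) := by ring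
    rw [h2]
    linarith
  have hc7 : (c : ℝ) ≤ x ^ 6 := by
    have h1 : (18 : ℝ) / δ = 18 * (1 / δ) := by ring
    rw [h1] at hc6
    have h2 : (18 : ℝ) * (1 / δ) ≤ x * x ^ 5 := mul_le_mul hx18 hδi (by positivity) hx0.le
    calc (c : ℝ) ≤ x * x ^ 5 := hc6.trans h2
      _ = x ^ 6 := by ring
  -- `Q`
  obtain ⟨s, hs, hQ1, hQ2⟩ := first_power hc.two_le (y := x ^ 12) (by
    calc (1 : ℝ) < 18 := by norm_num
      _ ≤ x := hx18
      _ = x ^ 1 := (pow_one x).symm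
      _ ≤ x ^ 12 := pow_le_pow_right₀ hx1 (by norm_num))
  obtain ⟨Q, hQ⟩ : ∃ Q : ℕ, Q = c ^ s := ⟨_, rfl⟩
  have hQR : (Q : ℝ) = (c : ℝ) ^ s := by rw [hQ]; push_cast; rfl
  rw [← hQR] at hQ1 hQ2
  have hQ3 : (Q : ℝ) ≤ x ^ 18 := by
    calc (Q : ℝ) ≤ c * x ^ 12 := hQ2
      _ ≤ x ^ 6 * x ^ 12 := mul_le_mul_of_nonneg_right hc7 (by positivity)
      _ = x ^ 18 := by ring
  have hQ4 : 2 ≤ Q := by
    rw [hQ]
    exact hc.two_le.trans (Nat.le_self_pow (by omega) _)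
  have hQ0 : (0 : ℝ) < Q := by exact_mod_cast (by omega : 0 < Q)
  -- `e`
  obtain ⟨e, he, he1, he2⟩ := first_power hQ4 (y := x ^ 500) (by
    calc (1 : ℝ) < 18 := by norm_num
      _ ≤ x := hx18
      _ = x ^ 1 := (pow_one x).symm
      _ ≤ x ^ 500 := pow_le_pow_right₀ hx1 (by norm_num))
  have he3 : (Q : ℝ) ^ e ≤ x ^ 518 := by
    calc (Q : ℝ) ^ e ≤ Q * x ^ 500 := he2
      _ ≤ x ^ 18 * x ^ 500 := mul_le_mul_of_nonneg_right hQ3 (by positivity)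
      _ = x ^ 518 := by rw [← pow_add]
  have he4 : e ≤ 43 := by
    by_contra h
    push Not at h
    have h1 : (x : ℝ) ^ (12 * e) ≤ x ^ 518 := by
      calc (x : ℝ) ^ (12 * e) = (x ^ 12) ^ e := by rw [pow_mul]
        _ ≤ (Q : ℝ) ^ e := pow_le_pow_left₀ (by positivity) hQ1 e
        _ ≤ x ^ 518 := he3
    have h2 : x ^ 518 < x ^ (12 * e) := pow_lt_pow_right₀ (by linarith) (by omega)
    linarith
  have he5 : (e : ℝ) ≤ 43 := by exact_mod_cast he4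
  -- comparisons of natural numbers by real numbers
  have hnx5 : ((n : ℝ)) ^ 5 = x ^ 500 := by rw [← hx, ← pow_mul]
  have hnx6 : ((n : ℝ)) ^ 6 = x ^ 600 := by rw [← hx, ← pow_mul]
  have hp : ∀ {i j : ℕ}, i ≤ j → x ^ i ≤ x ^ j := fun h => pow_le_pow_right₀ hx1 h
  have hn1 : (1 : ℝ) ≤ n := by
    rw [← hx]
    exact one_le_pow₀ hx1
  have hmQ : (8 * (2 * m * e : ℕ) : ℝ) ≤ δ * Q := by
    have h1 : (8 * (2 * m * e : ℕ) : ℝ) = 16 * m * e := by push_cast; ring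
    rw [h1]
    have h2 : 16 * (m : ℝ) * e ≤ 16 * (5 * x ^ 6 / 3360) * 43 := by gcongr
    have h3 : x ^ 7 ≤ δ * Q := by
      calc x ^ 7 ≤ (δ * x ^ 5) * x ^ 7 := le_mul_of_one_le_left (by positivity) hδx
        _ = δ * x ^ 12 := by ring
        _ ≤ δ * Q := mul_le_mul_of_nonneg_left hQ1 hδ.le
    have h4 : (18 : ℝ) * x ^ 6 ≤ x * x ^ 6 := mul_le_mul_of_nonneg_right hx18 (by positivity)
    have h5 : x * x ^ 6 = x ^ 7 := by ring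
    have h6 : 0 < x ^ 6 := by positivity
    linarith
  have hd1 : (⌊δ * (Q : ℝ) ^ 2 / 8⌋₊ : ℝ) ≤ δ * (Q : ℝ) ^ 2 / 8 := Nat.floor_le (by positivity)
  have hd2 : δ * (Q : ℝ) ^ 2 / 8 < (⌊δ * (Q : ℝ) ^ 2 / 8⌋₊ : ℝ) + 1 := Nat.lt_floor_add_one _
  have hsq : Real.sqrt n = x ^ 50 := by
    rw [← hx, show x ^ 100 = (x ^ 50) ^ 2 by rw [← pow_mul], Real.sqrt_sq (by positivity)]
  have hx2 : (324 : ℝ) ≤ x ^ 2 := by nlinarith
  refine ⟨c, m, s, e, ⌊δ * (Q : ℝ) ^ 2 / 8⌋₊, hc, ?_, hm0', hs, he, ?_, ?_, ?_, ?_, ?_, ?_, ?_, ?_, ?_, ?_, ?_, ?_, ?_,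
    hL216, ?_, ?_, ?_⟩
  · rw [div_le_iff₀ hδ] at hc5
    linarith
  · rw [div_le_iff₀ (by linarith)]
    have h1 : 4 * (L / δ) * δ ≤ m * δ := mul_le_mul_of_nonneg_right hm1 hδ.le
    have h2 : 4 * (L / δ) * δ = 4 * L := by field_simp
    linarith
  · rw [← hQ]
    exact hmQ
  · rw [← hQ]
    linarith
  · rw [← hQ, hsq]
    calc 6 * ((m : ℝ) * Q) ^ 2 ≤ 6 * (x ^ 6 * x ^ 18) ^ 2 := by gcongr
      _ = 6 * x ^ 48 := by ring
      _ ≤ x ^ 2 * x ^ 48 := mul_le_mul_of_nonneg_right (by linarith) (by positivity)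
      _ = x ^ 50 := by ring
  · rw [← hQ]
    have : ((n ^ 5 : ℕ) : ℝ) ≤ ((Q ^ e : ℕ) : ℝ) := by
      push_cast
      rw [hnx5]
      exact he1
    exact_mod_cast this
  · rw [← hQ]
    have : ((Q ^ e : ℕ) : ℝ) ≤ ((n ^ 6 : ℕ) : ℝ) := by
      push_cast
      rw [hnx6]
      exact he3.trans (hp (by norm_num))
    exact_mod_cast this
  · rw [← hQ]
    have : ((n * (n + 1) * m * (2 * m) : ℕ) : ℝ) ≤ ((Q ^ e : ℕ) : ℝ) := by
      push_cast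
      calc (n : ℝ) * (n + 1) * m * (2 * m) ≤ n * (n + n) * x ^ 6 * (2 * x ^ 6) := by gcongr
        _ = 4 * (n ^ 2 * x ^ 12) := by ring
        _ = 4 * x ^ 212 := by rw [← hx]; ring
        _ ≤ x ^ 2 * x ^ 212 := mul_le_mul_of_nonneg_right (by linarith) (by positivity)
        _ = x ^ 214 := by ring
        _ ≤ x ^ 500 := hp (by norm_num)
        _ ≤ (Q : ℝ) ^ e := he1
    exact_mod_cast this
  · rw [← hQ]
    have : (((n * (n + 1) * m * Q ^ 2) ^ 2 : ℕ) : ℝ) ≤ ((Q ^ e * Q ^ 2 : ℕ) : ℝ) := by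
      push_cast
      calc ((n : ℝ) * (n + 1) * m * Q ^ 2) ^ 2 ≤ (n * (n + n) * x ^ 6 * Q ^ 2) ^ 2 := by gcongr
        _ = (4 * n ^ 4 * x ^ 12 * Q ^ 2) * Q ^ 2 := by ring
        _ ≤ (4 * n ^ 4 * x ^ 12 * (x ^ 18) ^ 2) * Q ^ 2 := by gcongr
        _ = (4 * x ^ 448) * Q ^ 2 := by rw [← hx]; ring
        _ ≤ (x ^ 2 * x ^ 448) * Q ^ 2 := by gcongr; linarith
        _ = x ^ 450 * Q ^ 2 := by ring
        _ ≤ x ^ 500 * Q ^ 2 := mul_le_mul_of_nonneg_right (hp (by norm_num)) (by positivity)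
        _ ≤ (Q : ℝ) ^ e * Q ^ 2 := mul_le_mul_of_nonneg_right he1 (by positivity)
    exact_mod_cast this
  · rw [← hQ]
    have : ((Q ^ e * Q ^ 2 : ℕ) : ℝ) ≤ ((n ^ 6 : ℕ) : ℝ) := by
      push_cast
      rw [hnx6]
      calc (Q : ℝ) ^ e * Q ^ 2 ≤ x ^ 518 * (x ^ 18) ^ 2 := by gcongr
        _ = x ^ 554 := by rw [← pow_mul, ← pow_add]
        _ ≤ x ^ 600 := hp (by norm_num)
    exact_mod_cast this
  · rw [← hQ]
    have : ((Q ^ 2 : ℕ) : ℝ) ≤ ((Q ^ e : ℕ) : ℝ) := by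
      push_cast
      calc (Q : ℝ) ^ 2 ≤ (x ^ 18) ^ 2 := by gcongr
        _ = x ^ 36 := by ring
        _ ≤ x ^ 500 := hp (by norm_num)
        _ ≤ (Q : ℝ) ^ e := he1
    exact_mod_cast this
  · rw [← hQ]
    have h1 : ((2 * m * e : ℕ) : ℝ) ≤ (Q : ℝ) := by
      have h2 : δ * (Q : ℝ) ≤ 1 * Q := mul_le_mul_of_nonneg_right hδ1 hQ0.le
      have h3 : (0 : ℝ) ≤ ((2 * m * e : ℕ) : ℝ) := Nat.cast_nonneg _
      linarith
    exact_mod_cast h1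
  · nlinarith
  · calc 9 * (L / δ) ^ 3 ≤ 9 * (x ^ 6 / 3360) ^ 3 := by gcongr
      _ ≤ 324 * x ^ 18 := by
          have h1 : (x ^ 6 / 3360) ^ 3 ≤ (x ^ 6) ^ 3 := by
            gcongr
            exact div_le_self (by positivity) (by norm_num)
          have h2 : (x ^ 6) ^ 3 = x ^ 18 := by ring
          have h3 : 0 < x ^ 18 := by positivity
          linarith
      _ ≤ x ^ 2 * x ^ 18 := mul_le_mul_of_nonneg_right hx2 (by positivity)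
      _ = x ^ 20 := by ring
      _ ≤ x ^ 100 := hp (by norm_num)
      _ = n := hx
  · rw [← hQ]
    have : ((Q ^ 2 : ℕ) : ℝ) ≤ (n : ℝ) := by
      push_cast
      calc (Q : ℝ) ^ 2 ≤ (x ^ 18) ^ 2 := by gcongr
        _ = x ^ 36 := by ring
        _ ≤ x ^ 100 := hp (by norm_num)
        _ = n := hx
    exact_mod_cast this
  · rw [← hQ]
    have hQe6 : Q ^ e ≤ n ^ 6 := by
      have : ((Q ^ e : ℕ) : ℝ) ≤ ((n ^ 6 : ℕ) : ℝ) := by
        push_cast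
        rw [hnx6]
        exact he3.trans (hp (by norm_num))
      exact_mod_cast this
    refine small_char (A := 5 / δ) hc.two_le (by exact_mod_cast hn1) hL (by linarith) hQe6 (by omega) ?_ ?_
    · calc (m : ℝ) ≤ 5 * (L / δ) := hm5
        _ = 5 / δ * L := by ring
    · have h1 : 8 * (c : ℝ) ^ 2 * (8 + 12 * (5 / δ)) * L ^ 2 ≤ x ^ 17 := by
        have h2 : (c : ℝ) ^ 2 ≤ (18 * x ^ 5) ^ 2 := by
          have h3 : (c : ℝ) ≤ 18 * x ^ 5 := by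
            calc (c : ℝ) ≤ 18 / δ := hc6
              _ = 18 * (1 / δ) := by ring
              _ ≤ 18 * x ^ 5 := by linarith
          gcongr
        have h4 : 8 + 12 * (5 / δ) ≤ 68 * x ^ 5 := by
          have h5 : 12 * (5 / δ) = 60 * (1 / δ) := by ring
          rw [h5]
          linarith
        have h6 : L ^ 2 ≤ (x / 3360) ^ 2 := by
          have h7 : L ≤ x / 3360 := by linarith
          have h8 : 0 ≤ L := by linarith
          gcongr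
        calc 8 * (c : ℝ) ^ 2 * (8 + 12 * (5 / δ)) * L ^ 2
            ≤ 8 * (18 * x ^ 5) ^ 2 * (68 * x ^ 5) * (x / 3360) ^ 2 := by gcongr
          _ = (8 * 18 ^ 2 * 68 / 3360 ^ 2) * x ^ 17 := by ring
          _ ≤ 1 * x ^ 17 := mul_le_mul_of_nonneg_right (by norm_num) (by positivity)
          _ = x ^ 17 := one_mul _
      have h9 : x ^ 19 ≤ δ * (Q : ℝ) ^ 2 := by
        calc x ^ 19 ≤ (δ * x ^ 5) * x ^ 19 := le_mul_of_one_le_left (by positivity) hδx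
          _ = δ * (x ^ 12) ^ 2 := by ring
          _ ≤ δ * (Q : ℝ) ^ 2 := by gcongr
      have h10 : 324 * x ^ 17 ≤ x ^ 19 := by
        calc 324 * x ^ 17 ≤ x ^ 2 * x ^ 17 := mul_le_mul_of_nonneg_right hx2 (by positivity)
          _ = x ^ 19 := by ring
      have h11 : 1 ≤ x ^ 17 := one_le_pow₀ hx1
      linarith
  · rw [hsq, div_le_iff₀ (by positivity)]
    have h1 : (10 : ℝ) ≤ x ^ 45 := by
      calc (10 : ℝ) ≤ 18 := by norm_num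
        _ ≤ x := hx18
        _ = x ^ 1 := (pow_one x).symm
        _ ≤ x ^ 45 := hp (by norm_num)
    calc (10 : ℝ) ≤ x ^ 45 := h1
      _ ≤ (δ * x ^ 5) * x ^ 45 := le_mul_of_one_le_left (by positivity) hδx
      _ = δ * x ^ 50 := by ring

end Pool.Agent.Helper27.ND
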