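import Pool.Agent.Helper27.ND.Final

/-!
Boolean branching programs which inspect nearly all bits: an explicit Boolean function on `N` bits which pushdown
programs of polynomial size evaluate by reading at most `sqrt N` bits, but which (catalytic) branching programs of size
`2 ^ (N ^ (1 / 6))` that leave `N ^ 0.992` bits unread get right only on a part `1 / 2 + o(1)` of the inputs; if all bits
may be read, fewer states are enough.
-/

set_option autoImplicit false

namespace Pool.Agent.Results.MP_4e849b_lc.NearlyAllBits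

open Pool.Agent.Helper19.NF Pool.Agent.Helper27.NC

theorem result :
    -- (H) the numbers
    (∃ C n0 : ℕ, ∀ n ≥ n0, ∀ δ : ℝ, 0 < δ → δ ≤ 1 → 1 ≤ δ ^ 20 * n →
      ∃ (c m s e k N : ℕ) (_ : NeZero m), c.Prime ∧ 1 ≤ s ∧ 1 ≤ e ∧ k = (c ^ s) ^ e ∧ N = k * (c ^ s) ^ 2 ∧
        n * (n + 1) * m ≤ k ∧ n ^ 5 ≤ N ∧ N ≤ n ^ 6 ∧
        ∀ (K : Type) (_ : Field K) (_ : Fintype K) (x0 : ZMod (n + 1) × ZMod m → Fin e → K),
        Fintype.card K = c ^ s → Function.Injective x0 →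
        -- (L) programs
        (∀ (σ S p T : ℕ) (Y : Type) (φ : (Fin e → K) → Y) (P : Prog ((Fin e → K) × (K × K)) Bool (Y × Fin σ) σ S),
          (∀ y, Nat.card {b // φ b = y} ≤ p) → (T : ℝ) ≤ (1 - δ) * N → (S : ℝ) ≤ σ * (n : ℝ) ^ ((n : ℝ) / 3) →
          (Nat.card {s : Fin σ × ((Fin e → K) × (K × K) → Bool) //
              P.Outputs s.2 (P.start s.1) (φ (out x0 (table s.2)), s.1) ∧
              Nat.card {b // P.Asks s.2 (P.start s.1) b} ≤ T} : ℝ) ≤
            (p / k + δ) * Nat.card (Fin σ × ((Fin e → K) × (K × K) → Bool))) ∧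
        -- (T) pushdown programs
        (∀ (w p T : ℕ) (Y Q Γ : Type) (_ : Finite Q) (_ : Finite Γ) (φ : (Fin e → K) → Y)
            (P : PProg ((Fin e → K) × (K × K)) Bool Y Q Γ),
          (∀ y, Nat.card {b // φ b = y} ≤ p) → (T : ℝ) ≤ (1 - δ) * N →
          (16 * w ^ 2 : ℝ) ≤ n * Real.log n → Nat.card Q ≤ 2 ^ w → Nat.card Γ ≤ 2 ^ w →
          (Nat.card {J : (Fin e → K) × (K × K) → Bool //
              (∃ j ≤ 2 ^ w, P.act (P.conf J j).1 = .out (φ (out x0 (table J)))) ∧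
              Nat.card {b // P.Asks J b} ≤ T} : ℝ) ≤
            (p / k + δ) * Nat.card ((Fin e → K) × (K × K) → Bool)) ∧
        -- (P) a pushdown program which is always right
        (∃ (Q Γ : Type) (_ : Finite Q) (_ : Finite Γ) (P : PProg ((Fin e → K) × (K × K)) Bool (Fin e → K) Q Γ),
          Nat.card Q ≤ (2 * k) ^ 5 ∧ Nat.card Γ ≤ (2 * k) ^ 2 ∧
          ∀ J, P.Outputs J (out x0 (table J)) ∧ Nat.card {b // P.Asks J b} ^ 2 ≤ N) ∧
        -- (U) a program which is always right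
        (∃ (S : ℕ) (P : Prog ((Fin e → K) × (K × K)) Bool (Fin e → K) 1 S), S ≤ (2 * k) ^ (5 * n) ∧
          ∀ J, P.Outputs J (P.start 0) (out x0 (table J)) ∧ Nat.card {b // P.Asks J (P.start 0) b} ^ 2 ≤ N) ∧
        -- (C) a program which reads all bits
        (∃ (S : ℕ) (P : Prog ((Fin e → K) × (K × K)) Bool (Fin e → K) 1 S), (S : ℝ) ≤ (Real.log n / δ) ^ (C * n) ∧
          ∀ J, P.Outputs J (P.start 0) (out x0 (table J)))) ∧
    -- (G) the general bound
    (∀ (K : Type) (_ : Field K) (_ : Fintype K) (c : ℕ) (_ : Fact c.Prime) (_ : CharP K c) (d M n m e σ S p T : ℕ)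
      (_ : NeZero m) (Y : Type) (x : ℝ) (x0 : ZMod (n + 1) × ZMod m → Fin e → K) (φ : (Fin e → K) → Y)
      (P : Prog ((Fin e → K) × (K × K)) Bool (Y × Fin σ) σ S),
      1 ≤ n → 1 ≤ e → 2 * m * e ≤ Fintype.card K →
      d < (Fintype.card K - (2 * m * e - 1)) * (Fintype.card K - Fintype.card K / c) →
      4 * (n * m) ≤ M → 2 * Fintype.card K ^ e ≤ M →
      (M : ℝ) * ((Fintype.card K : ℝ) ^ (2 * m * e) * (1 - 1 / (8 * (c : ℝ) ^ 2)) ^ d) ≤ 1 →
      0 < x → Function.Injective x0 → (∀ y, Nat.card {b // φ b = y} ≤ p) →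
      (Nat.card {s : Fin σ × ((Fin e → K) × (K × K) → Bool) //
          P.Outputs s.2 (P.start s.1) (φ (out x0 (table s.2)), s.1) ∧
          Nat.card {b // P.Asks s.2 (P.start s.1) b} ≤ T} : ℝ) ≤
        (σ * ((2 * (n * (n + 1) * m) ^ 2 + (1 + 1 / M) * p) / (Fintype.card K : ℝ) ^ e + 2 * (n * m *
            (((T / ((Fintype.card K - (2 * m * e - 1)) * (Fintype.card K - Fintype.card K / c) - d) : ℕ) : ℝ) /
              (Fintype.card K : ℝ) ^ e) ^ m)) +
          2 * (S * (Real.exp x * (4 * m ^ 2 * ((T : ℝ) / (Fintype.card K : ℝ) ^ e) / x + 2 * m ^ 2 * n *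
            (((T / ((Fintype.card K - (2 * m * e - 1)) * (Fintype.card K - Fintype.card K / c) - d) : ℕ) : ℝ) /
              (Fintype.card K : ℝ) ^ e) ^ m) ^ (n - 1)))) * Nat.card ((Fin e → K) × (K × K) → Bool)) := by
  refine ⟨Pool.Agent.Helper27.ND.numbers, ?_⟩
  intro K _ _ c _ _ d M n m e σ S p T _ Y x x0 φ P hn he hQ hd hM hM' hη hx h0 hφ
  exact Pool.Agent.Helper27.ND.general x x0 φ P hn he hQ hd hM hM' hη hx h0 hφ

end Pool.Agent.Results.MP_4e849b_lc.NearlyAllBits
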